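import Pool.Agent.H26.Lib.R_pool_sql_team_seeded_3997aac3.Q5.DP.Sign
import Pool.Agent.H26.Lib.R_pool_sql_team_seeded_3997aac3.Q5.VL.Up

/-! The determinants of the embeddings of number fields in a relation. The base field `K` is `ℚ`
(`hK`); it is kept general because of the instances. -/

set_option autoImplicit false
set_option linter.unusedSectionVars false

namespace Pool.Agent.Q5.DP

open NumberField Pool.Agent.W353.NF Pool.Agent.W401.Cheb
open scoped Classical

/-- the determinant of the embeddings of a basis -/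
noncomputable def delta (F : Type) [Field F] [NumberField F] (θ : Module.Basis (F →+* ℂ) ℚ F) : ℂ :=
  (Matrix.of fun (σ : F →+* ℂ) j => σ (θ j)).det

theorem delta_ne (F : Type) [Field F] [NumberField F] (θ : Module.Basis (F →+* ℂ) ℚ F) :
    delta F θ ≠ 0 := by
  have h := Algebra.discr_eq_det_embeddingsMatrixReindex_pow_two ℚ ℂ θ
    (RingHom.equivRatAlgHom (R := F) (S := ℂ))
  intro h0
  have h1 : (Algebra.embeddingsMatrixReindex ℚ ℂ (⇑θ) (RingHom.equivRatAlgHom (R := F) (S := ℂ))).det =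
      delta F θ := by
    unfold delta
    rw [← Matrix.det_transpose]
    rfl
  rw [h1, h0, zero_pow two_ne_zero] at h
  have h2 : Algebra.discr ℚ θ ≠ 0 := Algebra.discr_not_zero_of_basis ℚ θ
  exact h2 ((algebraMap ℚ ℂ).injective (by rw [h, map_zero]))

theorem rat_of_one {K : Type} [Field K] [NumberField K] (hK : Module.finrank ℚ K = 1) (x : K) :
    ∃ q : ℚ, (q : K) = x := by
  obtain ⟨v, hv, h⟩ := finrank_eq_one_iff'.1 hK
  obtain ⟨a, ha⟩ := h 1
  obtain ⟨b, hb⟩ := h x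
  have ha0 : a ≠ 0 := by
    rintro rfl
    rw [zero_smul] at ha
    exact zero_ne_one ha
  refine ⟨b / a, ?_⟩
  rw [Algebra.smul_def] at ha hb
  have h1 : v = ((a : ℚ) : K)⁻¹ := by
    refine eq_inv_of_mul_eq_one_right ?_
    exact ha
  have h2 : algebraMap ℚ K b = ((b : ℚ) : K) := rfl
  rw [h1, h2] at hb
  rw [← hb]
  push_cast
  exact div_eq_mul_inv _ _

section
variable {K : Type} [Field K] [NumberField K] (hK : Module.finrank ℚ K = 1)
variable (F : Type) [Field F] [NumberField F] [Algebra K F] (ι₀ : AlgebraicClosure K →+* ℂ)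

/-- the embeddings in `ℂ` -/
noncomputable def emb : (F →ₐ[K] AlgebraicClosure K) ≃ (F →+* ℂ) :=
  Equiv.ofBijective (fun i => ι₀.comp (i : F →+* AlgebraicClosure K)) (by
    rw [Fintype.bijective_iff_injective_and_card]
    constructor
    · intro i j hij
      apply AlgHom.ext
      intro x
      exact ι₀.injective (DFunLike.congr_fun hij x)
    · rw [AlgHom.card, NumberField.Embeddings.card, ← Module.finrank_mul_finrank ℚ K F, hK,
        one_mul])

theorem emb_apply (i : F →ₐ[K] AlgebraicClosure K) (x : F) : emb hK F ι₀ i x = ι₀ (i x) := rfl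

theorem emb_symm_apply (σ : F →+* ℂ) (x : F) : ι₀ ((emb hK F ι₀).symm σ x) = σ x := by
  rw [← emb_apply hK, Equiv.apply_symm_apply]

/-- the permutation of the embeddings -/
noncomputable def pe (g : GK K) : Equiv.Perm (F →+* ℂ) := (emb hK F ι₀).permCongr (act K F g)

theorem pe_apply (g : GK K) (σ : F →+* ℂ) (x : F) :
    pe hK F ι₀ g σ x = ι₀ (g ((emb hK F ι₀).symm σ x)) := by
  unfold pe
  rw [Equiv.permCongr_apply]
  rfl

theorem pe_pow (g : GK K) (k : ℕ) : pe hK F ι₀ g ^ k = pe hK F ι₀ (g ^ k) := by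
  have h1 : ∀ g, pe hK F ι₀ g = ((emb hK F ι₀).permCongrHom.toMonoidHom.comp (act K F)) g :=
    fun g => rfl
  rw [h1, h1, map_pow]

theorem pe_fix (g : GK K) : Nat.card {x // pe hK F ι₀ g x = x} = fixn K F g := by
  unfold fixn
  refine Nat.card_congr (Equiv.subtypeEquiv (emb hK F ι₀).symm fun x => ?_)
  unfold pe
  rw [Equiv.permCongr_apply]
  exact (Equiv.eq_symm_apply _).symm

/-- the determinant over the algebraic numbers -/
noncomputable def dd (θ : Module.Basis (F →+* ℂ) ℚ F) : AlgebraicClosure K :=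
  (Matrix.of fun (σ : F →+* ℂ) j => (emb hK F ι₀).symm σ (θ j)).det

theorem dd_coe (θ : Module.Basis (F →+* ℂ) ℚ F) : ι₀ (dd hK F ι₀ θ) = delta F θ := by
  unfold dd delta
  rw [RingHom.map_det]
  congr 1
  ext σ j
  exact emb_symm_apply hK F ι₀ σ (θ j)

theorem dd_ne (θ : Module.Basis (F →+* ℂ) ℚ F) : dd hK F ι₀ θ ≠ 0 := by
  intro h
  apply delta_ne F θ
  rw [← dd_coe hK F ι₀, h, map_zero]

theorem dd_smul (θ : Module.Basis (F →+* ℂ) ℚ F) (g : GK K) :
    g (dd hK F ι₀ θ) = ((Equiv.Perm.sign (pe hK F ι₀ g) : ℤˣ) : ℤ) * dd hK F ι₀ θ := by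
  unfold dd
  rw [← Matrix.det_permute (pe hK F ι₀ g)]
  change (g : AlgebraicClosure K →+* AlgebraicClosure K) _ = _
  rw [RingHom.map_det]
  congr 1
  ext σ j
  simp only [RingHom.mapMatrix_apply, Matrix.map_apply, Matrix.of_apply, Matrix.submatrix_apply, id]
  unfold pe
  rw [Equiv.permCongr_apply, Equiv.symm_apply_apply]
  rfl

end

section
variable {K : Type} [Field K] [NumberField K] (hK : Module.finrank ℚ K = 1)

/-- **The relation between the determinants.** -/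
theorem delta_rel (hK : Module.finrank ℚ K = 1) {ι : Type} [Fintype ι] {Z : ι → Type}
    [∀ j, Field (Z j)] [∀ j, NumberField (Z j)] [∀ j, Algebra K (Z j)] {n : ι → ℤ}
    (h : ∀ g : GK K, ∑ j, n j * (fixn K (Z j) g : ℤ) = 0)
    (θ : ∀ j, Module.Basis (Z j →+* ℂ) ℚ (Z j)) :
    ∃ q : ℚ, q ≠ 0 ∧ ∏ j, (delta (Z j) (θ j)) ^ (n j) = (q : ℂ) := by
  obtain ⟨ι₀⟩ : Nonempty (AlgebraicClosure K →+* ℂ) := by
    obtain ⟨i⟩ : Nonempty (K →+* ℂ) := inferInstance
    let _ := i.toAlgebra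
    exact ⟨(IsAlgClosed.lift : AlgebraicClosure K →ₐ[K] ℂ).toRingHom⟩
  set D : AlgebraicClosure K := ∏ j, (dd hK (Z j) ι₀ (θ j)) ^ (n j) with hD
  have hD0 : D ≠ 0 := Finset.prod_ne_zero_iff.2 fun j _ => zpow_ne_zero _ (dd_ne _ _ _ _)
  have h1 : ∀ g : GK K, g D = D := by
    intro g
    have h2 := sign_rel (fun j => pe hK (Z j) ι₀ g) n (by
      intro k
      rw [← h (g ^ k)]
      refine Finset.sum_congr rfl fun j _ => ?_
      rw [pe_pow, pe_fix])
    have h3 : g D = ∏ j, (((Equiv.Perm.sign (pe hK (Z j) ι₀ g) : ℤˣ) : ℤ) : AlgebraicClosure K) ^ (n j) *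
        (dd hK (Z j) ι₀ (θ j)) ^ (n j) := by
      rw [hD, map_prod]
      refine Finset.prod_congr rfl fun j _ => ?_
      rw [map_zpow₀, dd_smul, mul_zpow]
    rw [h3, Finset.prod_mul_distrib, ← hD]
    have h4 : ∏ j, (((Equiv.Perm.sign (pe hK (Z j) ι₀ g) : ℤˣ) : ℤ) : AlgebraicClosure K) ^ (n j) =
        1 := by
      have h5 := congrArg (Units.map (Int.castRingHom (AlgebraicClosure K)).toMonoidHom) h2
      rw [map_prod, map_one] at h5
      have h6 := congrArg (fun u : (AlgebraicClosure K)ˣ => (u : AlgebraicClosure K)) h5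
      simp only [Units.coe_prod, map_zpow, Units.val_zpow_eq_zpow_val, Units.val_one] at h6
      exact h6
    rw [h4, one_mul]
  obtain ⟨x, hx⟩ := IntermediateField.mem_bot.1 ((InfiniteGalois.mem_bot_iff_fixed D).2 h1)
  obtain ⟨q, rfl⟩ := rat_of_one hK x
  rw [map_ratCast] at hx
  refine ⟨q, ?_, ?_⟩
  · rintro rfl
    rw [Rat.cast_zero] at hx
    exact hD0 hx.symm
  · have h7 := congrArg ι₀ hx
    rw [hD, map_prod] at h7
    simp only [map_zpow₀, dd_coe, map_ratCast] at h7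
    exact h7.symm

/-- complex conjugation -/
theorem exists_conj (hK : Module.finrank ℚ K = 1) (ι₀ : AlgebraicClosure K →+* ℂ) :
    ∃ c : GK K, ∀ x, ι₀ (c x) = (starRingEnd ℂ) (ι₀ x) := by
  let _ : Algebra (AlgebraicClosure K) ℂ := ι₀.toAlgebra
  let _ : Algebra K ℂ := (ι₀.comp (algebraMap K (AlgebraicClosure K))).toAlgebra
  have : IsScalarTower K (AlgebraicClosure K) ℂ := IsScalarTower.of_algebraMap_eq fun x => rfl
  let φ : ℂ ≃ₐ[K] ℂ := AlgEquiv.ofRingEquiv (f := starRingAut) (by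
    intro x
    obtain ⟨q, rfl⟩ := rat_of_one hK x
    change (starRingEnd ℂ) (ι₀ (algebraMap K _ (q : K))) = ι₀ (algebraMap K _ (q : K))
    rw [map_ratCast, map_ratCast, map_ratCast])
  refine ⟨AlgEquiv.restrictNormal φ (AlgebraicClosure K), fun x => ?_⟩
  exact AlgEquiv.restrictNormal_commutes φ (AlgebraicClosure K) x

/-- the real embeddings -/
theorem real_rel (hK : Module.finrank ℚ K = 1) {ι : Type} [Fintype ι] {Z : ι → Type}
    [∀ j, Field (Z j)] [∀ j, NumberField (Z j)] [∀ j, Algebra K (Z j)] {n : ι → ℤ}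
    (h : ∀ g : GK K, ∑ j, n j * (fixn K (Z j) g : ℤ) = 0) :
    ∑ j, n j * (Nat.card {σ : Z j →+* ℂ // ComplexEmbedding.conjugate σ = σ} : ℤ) = 0 := by
  obtain ⟨ι₀⟩ : Nonempty (AlgebraicClosure K →+* ℂ) := by
    obtain ⟨i⟩ : Nonempty (K →+* ℂ) := inferInstance
    let _ := i.toAlgebra
    exact ⟨(IsAlgClosed.lift : AlgebraicClosure K →ₐ[K] ℂ).toRingHom⟩
  obtain ⟨c, hc⟩ := exists_conj hK ι₀
  rw [← h c]
  refine Finset.sum_congr rfl fun j _ => ?_
  rw [← pe_fix hK (Z j) ι₀ c]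
  congr 2
  refine Nat.card_congr (Equiv.subtypeEquivRight fun σ => ?_)
  have h1 : pe hK (Z j) ι₀ c σ = ComplexEmbedding.conjugate σ := by
    ext x
    rw [pe_apply, hc, emb_symm_apply]
    rfl
  rw [h1]

/-- the degrees -/
theorem deg_rel (hK : Module.finrank ℚ K = 1) {ι : Type} [Fintype ι] {Z : ι → Type}
    [∀ j, Field (Z j)] [∀ j, NumberField (Z j)] [∀ j, Algebra K (Z j)] {n : ι → ℤ}
    (h : ∀ g : GK K, ∑ j, n j * (fixn K (Z j) g : ℤ) = 0) :
    ∑ j, n j * (Nat.card (Z j →+* ℂ) : ℤ) = 0 := by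
  obtain ⟨ι₀⟩ : Nonempty (AlgebraicClosure K →+* ℂ) := by
    obtain ⟨i⟩ : Nonempty (K →+* ℂ) := inferInstance
    let _ := i.toAlgebra
    exact ⟨(IsAlgClosed.lift : AlgebraicClosure K →ₐ[K] ℂ).toRingHom⟩
  rw [← h 1]
  refine Finset.sum_congr rfl fun j _ => ?_
  rw [← pe_fix hK (Z j) ι₀ 1]
  congr 2
  refine (Nat.card_congr (Equiv.subtypeUnivEquiv fun σ => ?_)).symm
  ext x
  rw [pe_apply]
  exact emb_symm_apply hK (Z j) ι₀ σ x

end

end Pool.Agent.Q5.DP
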