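import Pool.Agent.H26.Lib.R_pool_sql_team_seeded_3997aac3.Q5.DP.Lin
import Pool.Agent.H26.Lib.R_pool_sql_team_seeded_3997aac3.Q5.DP.Disc

/-! The data of a motive that enter Deligne's conjecture, over all number fields. -/

set_option autoImplicit false
set_option linter.unusedSectionVars false

namespace Pool.Agent.Q5.DP

open Module NumberField
open scoped Classical

section
variable {E V X : Type} [Field E] [CharZero E] [AddCommGroup V] [Module E V] [Fintype X] {d : ℕ}
variable {c : V →ₗ[E] V} (hc : ∀ v, c (c v) = v) {s : X → X} (hs : ∀ x, s (s x) = x) {R : X → Prop}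
  (r1 : ∀ x, R x ∨ R (s x)) (r2 : ∀ x, R x → R (s x) → s x = x)
  (bp : Basis (Fin d) E (Module.End.eigenspace c 1))
  (bm : Basis (Fin d) E (Module.End.eigenspace c (-1)))

/-- the basis vectors -/
noncomputable def bb (R : X → Prop) (y : X) (k : Fin d) : V := if R y then (bp k : V) else bm k

theorem hh_eq (f : plusX c s) (y : X) :
    hh hc R f.1 y = ∑ k, phi hc bp bm R f (k, y) • bb bp bm R y k := by
  unfold hh bb
  by_cases hR : R y
  · rw [if_pos hR]
    rw [Finset.sum_congr rfl fun k _ => by rw [phi_pos hc bp bm f hR, if_pos hR]]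
    conv_lhs => rw [← bp.sum_repr (pr c hc 1 (Or.inl rfl) (f.1 y))]
    rw [Submodule.coe_sum]
    rfl
  · rw [if_neg hR]
    rw [Finset.sum_congr rfl fun k _ => by rw [phi_neg hc bp bm f hR, if_neg hR]]
    conv_lhs => rw [← bm.sum_repr (pr c hc (-1) (Or.inr rfl) (f.1 y))]
    rw [Submodule.coe_sum]
    rfl

/-- a semilinear map -/
structure Semi (τ : E →+* ℂ) (per : V → Fin d → ℂ) : Prop where
  add : ∀ x y, per (x + y) = per x + per y
  smul : ∀ (a : E) x, per (a • x) = τ a • per x

theorem Semi.zero {τ : E →+* ℂ} {per : V → Fin d → ℂ} (h : Semi τ per) : per 0 = 0 := by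
  have h1 := h.smul 0 0
  rw [zero_smul, map_zero, zero_smul] at h1
  exact h1

theorem Semi.sum {τ : E →+* ℂ} {per : V → Fin d → ℂ} (h : Semi τ per) {ι : Type} (t : Finset ι)
    (a : ι → E) (x : ι → V) : per (∑ j ∈ t, a j • x j) = ∑ j ∈ t, τ (a j) • per (x j) := by
  induction t using Finset.induction_on with
  | empty => simp [h.zero]
  | insert j t hj ih => rw [Finset.sum_insert hj, Finset.sum_insert hj, h.add, h.smul, ih]

include hc hs r1 r2 in
/-- **The determinant.** -/
theorem per_det (b : Basis (Fin d × X) E (plusX c s)) :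
    ∃ e : E, e ≠ 0 ∧ ∀ (τ : E →+* ℂ) (per : V → Fin d → ℂ), Semi τ per →
      (Matrix.of fun (κ' κ : Fin d × X) => per ((b κ).1 κ'.2) κ'.1).det =
        τ e * ∏ y : X, (Matrix.of fun i k => per (bb bp bm R y k) i).det := by
  set C : Matrix (Fin d × X) (Fin d × X) E := LinearMap.toMatrix b (Pi.basisFun E (Fin d × X))
    (phi hc bp bm R) with hC
  have hCap : ∀ κ' κ, C κ' κ = phi hc bp bm R (b κ) κ' := by
    intro κ' κ
    rw [hC, LinearMap.toMatrix_apply]
    rfl
  have hCdet : C.det ≠ 0 := by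
    have h1 := LinearEquiv.isUnit_det (phiE hc hs bp bm R r1 r2) b (Pi.basisFun E (Fin d × X))
    exact h1.ne_zero
  refine ⟨((QQ s R).det : E) ^ d * C.det, mul_ne_zero (pow_ne_zero _ (by
    exact_mod_cast QQ_det hs r1 r2)) hCdet, fun τ per h => ?_⟩
  have hmat : (Matrix.of fun (κ' κ : Fin d × X) => per ((b κ).1 κ'.2) κ'.1) =
      Matrix.kroneckerMap (· * ·) (1 : Matrix (Fin d) (Fin d) ℂ)
        ((QQ s R).map (Int.castRingHom ℂ)) *
        (Matrix.blockDiagonal (fun y : X => Matrix.of fun i k => per (bb bp bm R y k) i) *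
          C.map τ) := by
    ext ⟨i, x⟩ κ
    rw [Matrix.mul_apply, Fintype.sum_prod_type]
    have h1 : ∀ (i' : Fin d) (y : X), (Matrix.blockDiagonal (fun y : X => Matrix.of fun i k =>
        per (bb bp bm R y k) i) * C.map τ) (i', y) κ = per (hh hc R (b κ).1 y) i' := by
      intro i' y
      rw [Matrix.mul_apply, Fintype.sum_prod_type]
      rw [hh_eq hc bp bm, h.sum, Finset.sum_apply]
      refine Finset.sum_congr rfl fun k _ => ?_
      rw [Finset.sum_eq_single y]
      · rw [Matrix.blockDiagonal_apply_eq, Matrix.map_apply, hCap, Matrix.of_apply, Pi.smul_apply,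
          smul_eq_mul, mul_comm]
      · intro y' _ hy'
        rw [Matrix.blockDiagonal_apply_ne _ _ _ hy'.symm, zero_mul]
      · intro h2
        exact absurd (Finset.mem_univ _) h2
    rw [Finset.sum_congr rfl fun i' _ => Finset.sum_congr rfl fun y _ => by rw [h1 i' y]]
    rw [Finset.sum_eq_single i]
    · have h2 := QQ_hh hc hs r1 r2 (b κ).2 x
      have h3 : ∑ y, ((QQ s R x y : ℤ) : E) • hh hc R (b κ).1 y = (b κ).1 x := by
        rw [← h2]
        refine Finset.sum_congr rfl fun y _ => ?_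
        exact Int.cast_smul_eq_zsmul E _ _
      rw [Matrix.of_apply, ← h3, h.sum, Finset.sum_apply]
      refine Finset.sum_congr rfl fun y _ => ?_
      rw [Matrix.kroneckerMap_apply, Matrix.one_apply_eq, one_mul, Matrix.map_apply, Pi.smul_apply,
        smul_eq_mul, map_intCast]
      rfl
    · intro i' _ hi'
      refine Finset.sum_eq_zero fun y _ => ?_
      rw [Matrix.kroneckerMap_apply, Matrix.one_apply_ne hi'.symm, zero_mul, zero_mul]
    · intro h2
      exact absurd (Finset.mem_univ _) h2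
  rw [hmat, Matrix.det_mul, Matrix.det_mul, Matrix.det_blockDiagonal]
  have h4 : (Matrix.kroneckerMap (· * ·) (1 : Matrix (Fin d) (Fin d) ℂ)
        ((QQ s R).map (Int.castRingHom ℂ))).det = ((QQ s R).det : ℂ) ^ d := by
    have h5 := Matrix.det_kronecker (1 : Matrix (Fin d) (Fin d) ℂ)
      ((QQ s R).map (Int.castRingHom ℂ))
    refine h5.trans ?_
    rw [Matrix.det_one, one_pow, one_mul, Fintype.card_fin]
    congr 1
    have h6 := RingHom.map_det (Int.castRingHom ℂ) (QQ s R)
    rw [RingHom.mapMatrix_apply] at h6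
    rw [← h6]
    rfl
  have h7 : (C.map τ).det = τ C.det := by
    have h6 := RingHom.map_det τ C
    rw [RingHom.mapMatrix_apply] at h6
    exact h6.symm
  rw [h4, h7, map_mul, map_pow, map_intCast]
  ring

end

/-- The data of a motive over `ℚ` with coefficients in `E` that enter Deligne's conjecture for the
value of the L-function at `s = 0`. -/
structure Mot (E : Type) [Field E] where
  wt : ℤ
  d : ℕ
  V : Type
  [grp : AddCommGroup V]
  [mod : Module E V]
  Finf : V →ₗ[E] V
  per : (E →+* ℂ) → V → Fin d → ℂ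
  P : ℕ → ℕ → Polynomial E

attribute [instance] Mot.grp Mot.mod

section
variable {E : Type} [Field E]

/-- the Deligne periods of `M` over `F` -/
def IsPeriod (M : Mot E) (F : Type) [Field F] [NumberField F] (c : (E →+* ℂ) → ℂ) : Prop :=
  ∃ (b : Basis (Fin M.d × (F →+* ℂ)) E (plusX M.Finf (ComplexEmbedding.conjugate (K := F))))
    (θ : Basis (F →+* ℂ) ℚ F), ∀ τ, ∃ C : Matrix (Fin M.d × (F →+* ℂ)) (Fin M.d × (F →+* ℂ)) ℂ,
      (∀ κ i σ, M.per τ ((b κ).1 σ) i = ∑ j, σ (θ j) * C (i, j) κ) ∧ c τ = C.det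

/-- the values of the L-function of `M` over `F` at `s = 0` -/
def IsValue (M : Mot E) (F : Type) [Field F] [NumberField F] (ℓ : (E →+* ℂ) → ℂ) : Prop :=
  ∃ b : IsDedekindDomain.HeightOneSpectrum (𝓞 F) → E,
    (∀ᶠ v in Filter.cofinite, ∀ p f : ℕ, p.Prime → Ideal.absNorm v.asIdeal = p ^ f →
      b v = (M.P p f).eval 1) ∧ (∀ v, b v ≠ 0) ∧ ∀ τ, ℓ τ = ∏' v, (τ (b v))⁻¹

/-- Deligne's conjecture for `M` over `F` -/
def Deligne (M : Mot E) (F : Type) [Field F] [NumberField F] : Prop :=
  ∀ ℓ c, IsValue M F ℓ → IsPeriod M F c → ∃ e : E, ∀ τ, ℓ τ = τ e * c τ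

/-- the Frobenius polynomials -/
def IsPure (M : Mot E) : Prop :=
  ∀ᶠ p : ℕ in Filter.cofinite, p.Prime → ∀ τ : E →+* ℂ, ∃ α : Fin (finrank E M.V) → ℂ,
    (∀ j, ‖α j‖ = (p : ℝ) ^ ((M.wt : ℝ) / 2)) ∧
    ∀ f, (M.P p f).map τ = ∏ j, (1 - Polynomial.C (α j ^ f) * Polynomial.X)

/-- critical motives of weight `≤ -3` without classes of type `(q, q)` -/
structure IsCritical (M : Mot E) : Prop where
  inv : ∀ v, M.Finf (M.Finf v) = v
  semi : ∀ τ, Semi τ (M.per τ)
  iso : ∀ ε : E, ε = 1 ∨ ε = -1 → ∃ b : Basis (Fin M.d) E (Module.End.eigenspace M.Finf ε),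
    ∀ τ, (Matrix.of fun i k => M.per τ (b k) i).det ≠ 0
  pure : IsPure M
  wt : M.wt ≤ -3

end

section
variable {E : Type} [Field E] [CharZero E] {M : Mot E}

/-- the matrix of the target -/
noncomputable def TT (F : Type) [Field F] [NumberField F] (d : ℕ) (θ : Basis (F →+* ℂ) ℚ F) :
    Matrix (Fin d × (F →+* ℂ)) (Fin d × (F →+* ℂ)) ℂ :=
  Matrix.kroneckerMap (· * ·) (1 : Matrix (Fin d) (Fin d) ℂ)
    (Matrix.of fun (σ : F →+* ℂ) j => σ (θ j))

theorem TT_det (F : Type) [Field F] [NumberField F] (d : ℕ) (θ : Basis (F →+* ℂ) ℚ F) :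
    (TT F d θ).det = delta F θ ^ d := by
  have h5 := Matrix.det_kronecker (1 : Matrix (Fin d) (Fin d) ℂ)
    (Matrix.of fun (σ : F →+* ℂ) j => σ (θ j))
  refine h5.trans ?_
  rw [Matrix.det_one, one_pow, one_mul, Fintype.card_fin]
  rfl

theorem TT_mul (F : Type) [Field F] [NumberField F] (d : ℕ) (θ : Basis (F →+* ℂ) ℚ F)
    (C : Matrix (Fin d × (F →+* ℂ)) (Fin d × (F →+* ℂ)) ℂ) (i : Fin d) (σ : F →+* ℂ)
    (κ : Fin d × (F →+* ℂ)) : (TT F d θ * C) (i, σ) κ = ∑ j, σ (θ j) * C (i, j) κ := by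
  unfold TT
  rw [Matrix.mul_apply, Fintype.sum_prod_type, Finset.sum_eq_single i]
  · refine Finset.sum_congr rfl fun j _ => ?_
    rw [Matrix.kroneckerMap_apply, Matrix.one_apply_eq, one_mul]
    rfl
  · intro i' _ hi'
    refine Finset.sum_eq_zero fun y _ => ?_
    rw [Matrix.kroneckerMap_apply, Matrix.one_apply_ne hi'.symm, zero_mul, zero_mul]
  · intro h2
    exact absurd (Finset.mem_univ _) h2

/-- the choice of the representatives -/
theorem exists_R (X : Type) [Fintype X] (s : X → X) (hs : ∀ x, s (s x) = x) :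
    ∃ R : X → Prop, (∀ x, R x ∨ R (s x)) ∧ (∀ x, R x → R (s x) → s x = x) := by
  let e := Fintype.equivFin X
  refine ⟨fun x => e x ≤ e (s x), fun x => ?_, fun x h1 h2 => ?_⟩
  · rcases le_total (e x) (e (s x)) with h | h
    · exact Or.inl h
    · right
      change e (s x) ≤ e (s (s x))
      rw [hs]
      exact h
  · change e (s x) ≤ e (s (s x)) at h2
    rw [hs] at h2
    exact (e.injective (le_antisymm h1 h2)).symm

theorem card_R {X : Type} [Fintype X] {s : X → X} (hs : ∀ x, s (s x) = x) {R : X → Prop}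
    (r1 : ∀ x, R x ∨ R (s x)) (r2 : ∀ x, R x → R (s x) → s x = x) :
    (Finset.univ.filter fun x => R x).card = (Finset.univ.filter fun x => ¬ R x).card +
      Nat.card {x // s x = x} := by
  rw [Nat.card_eq_fintype_card, Fintype.card_subtype]
  have h1 : (Finset.univ.filter fun x => ¬ R x).card =
      (Finset.univ.filter fun x => R x ∧ s x ≠ x).card := by
    refine Finset.card_bij (fun x _ => s x) ?_ ?_ ?_
    · intro x hx
      have hR : ¬ R x := (Finset.mem_filter.1 hx).2
      have hR' : R (s x) := (r1 x).resolve_left hR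
      refine Finset.mem_filter.2 ⟨Finset.mem_univ _, hR', fun h => ?_⟩
      rw [hs] at h
      rw [← h] at hR'
      exact hR hR'
    · intro x _ y _ h
      rw [← hs x, h, hs]
    · intro y hy
      obtain ⟨hR, hne⟩ := (Finset.mem_filter.1 hy).2
      refine ⟨s y, Finset.mem_filter.2 ⟨Finset.mem_univ _, fun h => hne (r2 y hR h)⟩, hs y⟩
  rw [h1, ← Finset.card_union_of_disjoint]
  · congr 1
    ext x
    simp only [Finset.mem_filter, Finset.mem_univ, true_and, Finset.mem_union]
    constructor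
    · intro h
      by_cases hx : s x = x
      · exact Or.inr hx
      · exact Or.inl ⟨h, hx⟩
    · rintro (h | h)
      · exact h.1
      · rcases r1 x with h2 | h2
        · exact h2
        · rwa [h] at h2
  · rw [Finset.disjoint_left]
    intro x hx hx'
    exact (Finset.mem_filter.1 hx).2.2 (Finset.mem_filter.1 hx').2

theorem conj_conj (F : Type) [Field F] (σ : F →+* ℂ) :
    ComplexEmbedding.conjugate (ComplexEmbedding.conjugate σ) = σ := by
  ext x
  simp

/-- the formula for the periods over the number fields `F` with `T F` -/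
def PF (M : Mot E) (T : ∀ (F : Type) [Field F] [NumberField F], Prop) : Prop :=
  ∃ Ap Am : (E →+* ℂ) → ℂ, (∀ τ, Ap τ ≠ 0) ∧
    (∀ τ, Am τ ≠ 0) ∧ ∀ (F : Type) [Field F] [NumberField F], T F →
      (∃ c, IsPeriod M F c) ∧ ∀ c, IsPeriod M F c →
      ∃ (e : E) (θ : Basis (F →+* ℂ) ℚ F) (a b : ℕ), e ≠ 0 ∧ a + b = Nat.card (F →+* ℂ) ∧
        a = b + Nat.card {σ : F →+* ℂ // ComplexEmbedding.conjugate σ = σ} ∧
        ∀ τ, delta F θ ^ M.d * c τ = τ e * (Ap τ ^ a * Am τ ^ b)

/-- **The periods over the number fields.** -/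
theorem period_formula (hM : IsCritical M) : PF M (fun _ _ _ => True) := by
  obtain ⟨bp, hbp⟩ := hM.iso 1 (Or.inl rfl)
  obtain ⟨bm, hbm⟩ := hM.iso (-1) (Or.inr rfl)
  refine ⟨_, _, hbp, hbm, fun F _ _ _ => ?_⟩
  have hs : ∀ x : F →+* ℂ, ComplexEmbedding.conjugate (ComplexEmbedding.conjugate x) = x :=
    conj_conj F
  obtain ⟨R, r1, r2⟩ := exists_R (F →+* ℂ) ComplexEmbedding.conjugate hs
  have hθ : Nonempty (Basis (F →+* ℂ) ℚ F) := by
    refine ⟨(Module.finBasis ℚ F).reindex (Fintype.equivOfCardEq ?_)⟩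
    rw [Fintype.card_fin, NumberField.Embeddings.card]
  constructor
  · -- existence
    obtain ⟨θ⟩ := hθ
    let b : Basis (Fin M.d × (F →+* ℂ)) E (plusX M.Finf (ComplexEmbedding.conjugate (K := F))) :=
      Basis.ofEquivFun (phiE hM.inv hs bp bm R r1 r2)
    have hdet : (TT F M.d θ).det ≠ 0 := by
      rw [TT_det]
      exact pow_ne_zero _ (delta_ne F θ)
    let C : (E →+* ℂ) → Matrix (Fin M.d × (F →+* ℂ)) (Fin M.d × (F →+* ℂ)) ℂ := fun τ =>
      (TT F M.d θ)⁻¹ * Matrix.of fun κ' κ => M.per τ ((b κ).1 κ'.2) κ'.1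
    refine ⟨fun τ => (C τ).det, b, θ, fun τ => ⟨C τ, fun κ i σ => ?_, rfl⟩⟩
    have h1 : TT F M.d θ * C τ = Matrix.of fun κ' κ => M.per τ ((b κ).1 κ'.2) κ'.1 :=
      Matrix.mul_nonsing_inv_cancel_left _ _ (isUnit_iff_ne_zero.2 hdet)
    rw [← TT_mul, h1]
    rfl
  · rintro c ⟨b, θ, hC⟩
    obtain ⟨e, he, hdet⟩ := per_det hM.inv hs r1 r2 bp bm b
    refine ⟨e, θ, (Finset.univ.filter fun x => R x).card, (Finset.univ.filter fun x => ¬ R x).card,
      he, ?_, card_R hs r1 r2, fun τ => ?_⟩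
    · rw [Finset.card_filter_add_card_filter_not, Finset.card_univ, Nat.card_eq_fintype_card]
    · obtain ⟨C, h1, h2⟩ := hC τ
      have h3 : (Matrix.of fun (κ' κ : Fin M.d × (F →+* ℂ)) => M.per τ ((b κ).1 κ'.2) κ'.1) =
          TT F M.d θ * C := by
        ext ⟨i, σ⟩ κ
        rw [TT_mul, Matrix.of_apply, h1]
      have h4 := hdet τ (M.per τ) (hM.semi τ)
      rw [h3, Matrix.det_mul, TT_det, ← h2] at h4
      rw [h4]
      congr 1
      rw [← Finset.prod_filter_mul_prod_filter_not Finset.univ (fun y => R y)]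
      congr 1
      · rw [Finset.prod_congr rfl (g := fun _ => (Matrix.of fun i k => M.per τ (bp k) i).det)]
        · rw [Finset.prod_const]
        · intro y hy
          have hR : R y := (Finset.mem_filter.1 hy).2
          unfold bb
          simp only [if_pos hR]
      · rw [Finset.prod_congr rfl (g := fun _ => (Matrix.of fun i k => M.per τ (bm k) i).det)]
        · rw [Finset.prod_const]
        · intro y hy
          have hR : ¬ R y := (Finset.mem_filter.1 hy).2
          unfold bb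
          simp only [if_neg hR]

end

end Pool.Agent.Q5.DP
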