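import Mathlib

/-! Signs of permutations and fixed points of their powers. -/

set_option autoImplicit false
set_option linter.unusedSectionVars false

namespace Pool.Agent.Q5.DP

open Equiv Equiv.Perm
open scoped Classical

section
variable {X : Type} [Fintype X] (π : Perm X)

/-- the number of orbits -/
noncomputable def orb : ℕ := (Finset.univ.filter fun x => π x = x).card + π.cycleFactorsFinset.card

theorem sign_orb : sign π = (-1) ^ (Fintype.card X + orb π) := by
  have h1 : (Finset.univ.filter fun x => π x = x).card + π.support.card = Fintype.card X := by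
    have h2 : π.support = Finset.univ.filter fun x => ¬ π x = x := by
      ext x
      simp [mem_support]
    rw [h2, Finset.card_filter_add_card_filter_not]
    exact Finset.card_univ
  have h3 : Multiset.card π.cycleType = π.cycleFactorsFinset.card := by
    rw [cycleType_def, Multiset.card_map]
    rfl
  rw [sign_of_cycleType, sum_cycleType, h3, ← h1]
  unfold orb
  set a := (Finset.univ.filter fun x => π x = x).card
  have h4 : a + π.support.card + (a + π.cycleFactorsFinset.card) =
      2 * a + (π.support.card + π.cycleFactorsFinset.card) := by ring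
  rw [h4, pow_add (-1 : ℤˣ) (2 * a), pow_mul, Int.units_sq, one_pow, one_mul]

/-- the size of the orbit -/
noncomputable def wd (x : X) : ℕ := if π x = x then 1 else (π.cycleOf x).support.card

theorem pow_fix (x : X) (k : ℕ) : (π ^ k) x = x ↔ wd π x ∣ k := by
  unfold wd
  split_ifs with h
  · simp only [one_dvd, iff_true]
    exact pow_apply_eq_self_of_apply_eq_self h k
  · have hc : (π.cycleOf x).IsCycle := π.isCycle_cycleOf h
    have hx : π.cycleOf x x ≠ x := by rwa [cycleOf_apply_self]
    rw [← cycleOf_pow_apply_self, ← hc.pow_eq_one_iff' hx, ← orderOf_dvd_iff_pow_eq_one,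
      hc.orderOf]

theorem wd_pos (x : X) : 0 < wd π x := by
  unfold wd
  split_ifs with h
  · exact Nat.one_pos
  · rw [Finset.card_pos]
    exact ⟨x, mem_support_cycleOf_iff.2 ⟨SameCycle.refl _ _, mem_support.2 h⟩⟩

/-- the fixed points of the powers -/
theorem sum_fix {N : ℕ} (hN : π ^ N = 1) :
    ∑ k ∈ Finset.range N, Nat.card {x // (π ^ k) x = x} = N * orb π := by
  have hw : ∀ x, wd π x ∣ N := fun x => (pow_fix π x N).1 (by rw [hN]; rfl)
  have h1 : ∀ k, Nat.card {x // (π ^ k) x = x} = ∑ x : X, if wd π x ∣ k then 1 else 0 := by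
    intro k
    rw [Nat.card_eq_fintype_card, Fintype.card_subtype, Finset.card_filter]
    refine Finset.sum_congr rfl fun x _ => ?_
    simp only [pow_fix]
  rw [Finset.sum_congr rfl fun k _ => h1 k, Finset.sum_comm]
  have h2 : ∀ x : X, (∑ k ∈ Finset.range N, if wd π x ∣ k then 1 else 0) = N / wd π x := by
    intro x
    rw [← Finset.card_filter]
    obtain ⟨m, hm⟩ := hw x
    have hw0 := wd_pos π x
    rw [hm, Nat.mul_div_cancel_left _ hw0]
    have h3 : (Finset.range (wd π x * m)).filter (fun k => wd π x ∣ k) =
        (Finset.range m).image (fun j => wd π x * j) := by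
      ext k
      simp only [Finset.mem_filter, Finset.mem_range, Finset.mem_image]
      constructor
      · rintro ⟨h4, j, rfl⟩
        exact ⟨j, Nat.lt_of_mul_lt_mul_left h4, rfl⟩
      · rintro ⟨j, h4, rfl⟩
        exact ⟨Nat.mul_lt_mul_of_pos_left h4 hw0, dvd_mul_right _ _⟩
    rw [h3, Finset.card_image_of_injective _ (fun a b h => Nat.eq_of_mul_eq_mul_left hw0 h),
      Finset.card_range]
  rw [Finset.sum_congr rfl fun x _ => h2 x]
  rw [← Finset.sum_filter_add_sum_filter_not Finset.univ (fun x => π x = x)]
  unfold orb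
  rw [mul_add]
  congr 1
  · rw [Finset.sum_congr rfl (g := fun _ => N) fun x hx => by
      have : wd π x = 1 := if_pos (Finset.mem_filter.1 hx).2
      rw [this, Nat.div_one]]
    rw [Finset.sum_const, smul_eq_mul, mul_comm]
  · have h5 : ∀ x ∈ Finset.univ.filter (fun x => ¬ π x = x), π.cycleOf x ∈ π.cycleFactorsFinset := by
      intro x hx
      exact cycleOf_mem_cycleFactorsFinset_iff.2 (mem_support.2 (Finset.mem_filter.1 hx).2)
    rw [← Finset.sum_fiberwise_of_maps_to h5]
    rw [Finset.sum_congr rfl (g := fun _ => N), Finset.sum_const, smul_eq_mul, mul_comm]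
    intro c hc
    have h6 : (Finset.univ.filter (fun x => ¬ π x = x)).filter (fun x => π.cycleOf x = c) =
        c.support := by
      ext x
      simp only [Finset.mem_filter, Finset.mem_univ, true_and]
      constructor
      · rintro ⟨h7, rfl⟩
        exact mem_support_cycleOf_iff.2 ⟨SameCycle.refl _ _, mem_support.2 h7⟩
      · intro hx
        have h7 := cycle_is_cycleOf hx hc
        refine ⟨?_, h7.symm⟩
        rw [h7] at hx
        exact mem_support.1 (mem_support_cycleOf_iff.1 hx).2
    rw [h6, Finset.sum_congr rfl (g := fun _ => N / c.support.card), Finset.sum_const, smul_eq_mul]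
    · have hcy := (mem_cycleFactorsFinset_iff.1 hc).1
      refine Nat.mul_div_cancel' ?_
      obtain ⟨x, hx⟩ := hcy.nonempty_support
      have h8 := hw x
      have h9 : wd π x = c.support.card := by
        have h7 := cycle_is_cycleOf hx hc
        unfold wd
        rw [if_neg, ← h7]
        rw [h7] at hx
        exact mem_support.1 (mem_support_cycleOf_iff.1 hx).2
      rwa [h9] at h8
    · intro x hx
      have h7 := cycle_is_cycleOf hx hc
      have h9 : wd π x = c.support.card := by
        unfold wd
        rw [if_neg, ← h7]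
        rw [h7] at hx
        exact mem_support.1 (mem_support_cycleOf_iff.1 hx).2
      rw [h9]

end

/-- **The relation between the signs.** -/
theorem sign_rel {ι : Type} [Fintype ι] {X : ι → Type} [∀ j, Fintype (X j)]
    (π : ∀ j, Perm (X j)) (n : ι → ℤ)
    (h : ∀ k : ℕ, ∑ j, n j * (Nat.card {x // (π j ^ k) x = x} : ℤ) = 0) :
    ∏ j, (sign (π j)) ^ (n j) = 1 := by
  set N : ℕ := ∏ j, orderOf (π j) with hN
  have hN0 : 0 < N := Finset.prod_pos fun j _ => orderOf_pos _
  have hpow : ∀ j, π j ^ N = 1 := fun j =>
    orderOf_dvd_iff_pow_eq_one.1 (Finset.dvd_prod_of_mem _ (Finset.mem_univ j))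
  have h1 : ∑ j, n j * (Fintype.card (X j) : ℤ) = 0 := by
    rw [← h 0]
    refine Finset.sum_congr rfl fun j _ => ?_
    congr 2
    rw [← Nat.card_eq_fintype_card]
    refine Nat.card_congr (Equiv.symm (Equiv.subtypeUnivEquiv fun x => ?_))
    rw [pow_zero]
    rfl
  have h2 : ∑ j, n j * (orb (π j) : ℤ) = 0 := by
    have h3 : (N : ℤ) * ∑ j, n j * (orb (π j) : ℤ) = 0 := by
      have h4 : ∑ k ∈ Finset.range N, ∑ j, n j * (Nat.card {x // (π j ^ k) x = x} : ℤ) = 0 :=
        Finset.sum_eq_zero fun k _ => h k
      rw [Finset.sum_comm] at h4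
      rw [← h4, Finset.mul_sum]
      refine Finset.sum_congr rfl fun j _ => ?_
      rw [← Finset.mul_sum, ← Nat.cast_sum, sum_fix (π j) (hpow j)]
      push_cast
      ring
    rcases mul_eq_zero.1 h3 with h4 | h4
    · exact absurd h4 (by exact_mod_cast hN0.ne')
    · exact h4
  have h5 : ∀ j, (sign (π j)) ^ (n j) = (-1 : ℤˣ) ^ (n j * (Fintype.card (X j) : ℤ) +
      n j * (orb (π j) : ℤ)) := by
    intro j
    rw [sign_orb, ← zpow_natCast, ← zpow_mul]
    congr 1
    push_cast
    ring
  rw [Finset.prod_congr rfl fun j _ => h5 j]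
  have h6 : ∀ (s : Finset ι) (f : ι → ℤ), ∏ j ∈ s, (-1 : ℤˣ) ^ (f j) = (-1) ^ (∑ j ∈ s, f j) := by
    intro s f
    induction s using Finset.induction_on with
    | empty => simp
    | insert a s ha ih => rw [Finset.prod_insert ha, Finset.sum_insert ha, zpow_add, ih]
  rw [h6, Finset.sum_add_distrib, h1, h2]
  simp

end Pool.Agent.Q5.DP
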